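import Mathlib

/-!
# Interfaces for the superpolynomial lower bound for the chromatic number of unit ball packings

Every `XStatement` is a proposition proved in its own module.
-/

set_option autoImplicit false

open Finset

namespace Pool.Agent.Lib.MP_c5838f_co.SP

/-- The finite set `B` of centres is an `n`-packing: closed unit balls centred at distinct points
of `B` have disjoint interiors, i.e. their centres are at distance at least `2`. -/
def IsPacking {n : ℕ} (B : Finset (EuclideanSpace ℝ (Fin n))) : Prop :=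
  ∀ x ∈ B, ∀ y ∈ B, x ≠ y → 2 ≤ dist x y

/-- The touching graph: vertices are the balls (centres in `B`), edges are the pairs of balls whose
centres are at distance exactly `2`. -/
def touchingGraph {n : ℕ} (B : Finset (EuclideanSpace ℝ (Fin n))) : SimpleGraph {x // x ∈ B} where
  Adj x y := dist x.1 y.1 = 2
  symm := ⟨fun x y h => by
    rw [dist_comm]; exact h⟩
  loopless := ⟨fun x h => by
    have h' : dist x.1 x.1 = 2 := h
    rw [dist_self] at h'
    norm_num at h'⟩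

/-- The number of nonzero blocks of `x`. -/
def nzb {K : ℕ} {A : Type} [Zero A] [DecidableEq A] (x : Fin K → A) : ℕ := #{i | x i ≠ 0}

/-- Vectors with exactly `D` nonzero blocks, all of them in `W`. -/
def tset {A : Type} [Zero A] [DecidableEq A] [Fintype A] (K D : ℕ) (W : Finset A) :
    Finset (Fin K → A) := {x | nzb x = D ∧ ∀ i, x i ≠ 0 → x i ∈ W}

/-- Vectors with fewer than `D` nonzero blocks. -/
def bset (A : Type) [Zero A] [DecidableEq A] [Fintype A] (K D : ℕ) :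
    Finset (Fin K → A) := {x | nzb x < D}

/-- The value at `y` of the polynomial with coefficients `a`. -/
def ev {p k : ℕ} (a : Fin k → ZMod p) (y : ZMod p) : ZMod p := ∑ j, a j * y ^ (j : ℕ)

/-- The number of zeros of the polynomial with coefficients `a`. -/
def nz {p k : ℕ} [NeZero p] (a : Fin k → ZMod p) : ℕ := #{y : ZMod p | ev a y = 0}

/-- Nonzero polynomials of degree at most `κ` with exactly `κ` zeros. -/
def wset (p κ : ℕ) [NeZero p] : Finset (Fin (κ + 1) → ZMod p) := {a | a ≠ 0 ∧ nz a = κ}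

/-- EMB: a finite set of words of length `|J|` over the alphabet `Q` with Hamming distances at least
`d` gives a packing in every dimension `n ≥ |J||Q|`, words at distance exactly `d` becoming touching balls. -/
def EmbStatement : Prop :=
  ∀ (J Q : Type) [Fintype J] [Fintype Q] [DecidableEq J] [DecidableEq Q] (X : Finset (J → Q))
    (d n : ℕ), 0 < d → (∀ x ∈ X, ∀ y ∈ X, x ≠ y → d ≤ hammingDist x y) →
    Fintype.card J * Fintype.card Q ≤ n →
    ∃ B : Finset (EuclideanSpace ℝ (Fin n)), IsPacking B ∧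
      ∀ m : ℕ, (touchingGraph B).Colorable m →
        ∃ c : {x // x ∈ X} → Fin m, ∀ x y, hammingDist x.1 y.1 = d → c x ≠ c y

/-- ESYM: a lower bound for elementary symmetric functions. -/
def EsymStatement : Prop :=
  ∀ (K D : ℕ) (ξ : Fin K → ℝ) (ε : ℝ), 0 ≤ ε → (∀ i, -ε ≤ ξ i) → (∀ i, ξ i ≤ 1) →
    (K : ℝ) * ε ≤ 1 / 2 →
    -(32 : ℝ) ^ D ≤ ∑ S ∈ powersetCard D (univ : Finset (Fin K)), ∏ i ∈ S, ξ i

/-- FOUR: large sets contain many pairs with difference in `tset`. -/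
def FourStatement : Prop :=
  ∀ (p : ℕ) [Fact p.Prime] (A : Type) [AddCommGroup A] [Module (ZMod p) A] [Fintype A]
    [DecidableEq A] (W : Finset A) (K D : ℕ), (0 : A) ∉ W →
    (∀ c : ZMod p, c ≠ 0 → ∀ a ∈ W, c • a ∈ W) → 2 * K ≤ p - 1 →
    ∀ U : Finset (Fin K → A),
      ((K.choose D : ℝ) * (#W : ℝ) ^ D) * (#U : ℝ) ^ 2 / (Fintype.card A : ℝ) ^ K
        - (32 : ℝ) ^ D * (#W : ℝ) ^ D * (#U : ℝ)
      ≤ (#{q ∈ U ×ˢ U | q.1 - q.2 ∈ tset K D W} : ℝ)

/-- FEW: the number of `s`-tuples in `A` without differences in `T`. -/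
def FewStatement : Prop :=
  ∀ (V : Type) [AddCommGroup V] [Fintype V] [DecidableEq V] (T : Finset V) (θ : ℝ) (g : ℕ),
    0 < θ → θ < 1 → 0 < g →
    (∀ U : Finset V, U.Nonempty → θ * (Fintype.card V : ℝ) ≤ (#U : ℝ) → ∃ x ∈ U, g ≤ #{y ∈ U | x - y ∈ T}) →
    ∀ (s : ℕ) (A : Finset V),
      (#{x : Fin s → V | (∀ i, x i ∈ A) ∧ ∀ i j, i < j → x i - x j ∉ T} : ℝ)
        ≤ (2 * θ * (Fintype.card V : ℝ)) ^ s * θ⁻¹ ^ ((#A : ℝ) / (g : ℝ))

/-- SAMP: the sampling lemma. -/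
def SampStatement : Prop :=
  ∀ (V : Type) [AddCommGroup V] [Fintype V] [DecidableEq V] (T B : Finset V) (θ : ℝ)
    (g M s : ℕ), (0 : V) ∈ B → (∀ x ∈ B, -x ∈ B) → (∀ x ∈ T, -x ∈ T) →
    0 < θ → θ < 1 → 0 < g →
    (∀ U : Finset V, U.Nonempty → θ * (Fintype.card V : ℝ) ≤ (#U : ℝ) → ∃ x ∈ U, g ≤ #{y ∈ U | x - y ∈ T}) →
    2 * M * #B ≤ Fintype.card V →
    ((M.choose s : ℝ) * (2 * θ) ^ s * θ⁻¹ ^ ((Fintype.card V : ℝ) / (g : ℝ)) ≤ 1 / 2) →
    ∃ C : Finset V, (∀ x ∈ C, ∀ y ∈ C, x ≠ y → x - y ∉ B) ∧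
      ∀ (m : ℕ) (c : {x // x ∈ C} → Fin m),
        (∀ x y : {x // x ∈ C}, x.1 - y.1 ∈ T → c x ≠ c y) → M ≤ 2 * s * m

/-- PAR: the choice of the parameters `M` and `s`. -/
def ParStatement : Prop :=
  ∀ (θ : ℝ) (v b g : ℕ), 0 < θ → θ < 1 → 0 < b → 0 < g → (b : ℝ) ≤ 2 * θ ^ 2 * g → g ≤ v →
    2 * b ≤ v →
    ∃ M s : ℕ, 2 * M * b ≤ v ∧
      ((M.choose s : ℝ) * (2 * θ) ^ s * θ⁻¹ ^ ((v : ℝ) / (g : ℝ)) ≤ 1 / 2) ∧
      ∀ m : ℕ, M ≤ 2 * s * m → 1 ≤ 48 * θ * (m : ℝ)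

/-- RSZ: a nonzero polynomial of degree at most `κ` has at most `κ` zeros. -/
def RszStatement : Prop :=
  ∀ (p κ : ℕ) [Fact p.Prime] (a : Fin (κ + 1) → ZMod p), a ≠ 0 → nz a ≤ κ

/-- RSW: the number of polynomials of degree at most `κ` with exactly `κ` zeros. -/
def RswStatement : Prop :=
  ∀ (p κ : ℕ) [Fact p.Prime], κ < p → (p - 1) * p.choose κ ≤ #(wset p κ)

/-- CNT: the sizes of `tset` and `bset`. -/
def CntStatement : Prop :=
  ∀ (A : Type) [AddCommGroup A] [Fintype A] [DecidableEq A] (W : Finset A) (K D : ℕ),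
    (0 : A) ∉ W →
    #(tset K D W) = K.choose D * #W ^ D ∧
    (1 ≤ D → D ≤ K → #(bset A K D) ≤ K.choose (D - 1) * Fintype.card A ^ (D - 1))

/-- MAIN: the explicit theorem. -/
def MainStatement : Prop :=
  ∀ (p D : ℕ) [Fact p.Prime], 1 ≤ D → 2 * (4 * D) ^ (4 * D) ≤ p → ∀ n : ℕ, p ^ 3 ≤ n →
    ∃ B : Finset (EuclideanSpace ℝ (Fin n)), IsPacking B ∧
      ∀ m : ℕ, (touchingGraph B).Colorable m →
        ((p : ℝ) / (96 * (D : ℝ))) ^ D ≤ 96 * (m : ℝ)

/-- ASY: the choice of `p` and `D` in terms of `n`. -/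
def AsyStatement : Prop :=
  ∃ N : ℕ, ∀ n : ℕ, N ≤ n → ∃ p D : ℕ, p.Prime ∧ 1 ≤ D ∧ 2 * (4 * D) ^ (4 * D) ≤ p ∧
    p ^ 3 ≤ n ∧
    96 * Real.exp (Real.log n ^ 2 / (100 * Real.log (Real.log n)))
      ≤ ((p : ℝ) / (96 * (D : ℝ))) ^ D

end Pool.Agent.Lib.MP_c5838f_co.SP
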