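import Pool.Agent.Lib.MP_c5838f_co.SP.H20.Four
import Pool.Agent.Lib.MP_c5838f_co.SP.H20.Main
import Pool.Agent.Lib.MP_c5838f_co.SP.H15.Asy
import Pool.Agent.Lib.MP_c5838f_co.SP.H15.Samp
import Pool.Agent.Lib.MP_c5838f_co.SP.H27.Par
import Pool.Agent.Lib.MP_c5838f_co.SP.H51.Emb
import Pool.Agent.Lib.MP_c5838f_co.SP.H51.Esym
import Pool.Agent.Lib.MP_c5838f_co.SP.H51.Rs
import Pool.Agent.Lib.MP_c5838f_co.SP.H64.Few
import Pool.Agent.Lib.MP_c5838f_co.SP.H65.Cnt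

set_option autoImplicit false

namespace Pool.Agent.Lib.MP_c5838f_co.SP

/-- The explicit theorem. -/
theorem explicit : MainStatement :=
  H20.main H51.emb (H20.four H51.esym) (H15.samp H64.few) H27.par H51.rsz H51.rsw H65.cnt

/-- The asymptotic theorem. -/
theorem asymptotic : ∃ N : ℕ, ∀ n : ℕ, N ≤ n →
    ∃ B : Finset (EuclideanSpace ℝ (Fin n)), IsPacking B ∧
      ∀ m : ℕ, (touchingGraph B).Colorable m →
        Real.exp (Real.log n ^ 2 / (100 * Real.log (Real.log n))) ≤ (m : ℝ) := by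
  obtain ⟨N, hN⟩ := H15.asy
  refine ⟨N, fun n hn => ?_⟩
  obtain ⟨p, D, hp, hD, hpD, hpn, h⟩ := hN n hn
  haveI : Fact p.Prime := ⟨hp⟩
  obtain ⟨B, hB, hcol⟩ := explicit p D hD hpD n hpn
  refine ⟨B, hB, fun m hm => ?_⟩
  have h1 := hcol m hm
  linarith

end Pool.Agent.Lib.MP_c5838f_co.SP
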